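import Pool.Agent.H11.MN.ThreePure
import Pool.Agent.H39.MN.KerN

/-!
# MP_5ee2d0_ag, boundary divisors of type III, `h^(2,1) = 2`, classes of numerical dimension one

`YY → Δ` is a `K`-trivial model over a transversal disc through a very general point of the prime
divisor `b` of the base, the Hodge bundle is not trivial on `b`; `N` is a nef class on it whose
restriction to the generic fibre is a positive multiple of `L`, `L` of numerical dimension one. After
a base change there is a crepant modification `XX → YY` with `K_XX ~ 0` and dlt special fibre `X_b`,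
the reduced sum of the components `V_v`. The dual complex `K` of `X_b` is a triangulated disc, because
`X_t` is simply connected and `H^i(X_b, O) = 0` for `i = 1, 2`. Its edges are the double surfaces `D_e`,
its triangles the triple curves `E_p`, all isomorphic to one elliptic curve `E`. `XX` is smooth and `X_b`
has normal crossings along the `E_p` and at all but finitely many points of the `D_e`: `K + Diff = 0` on
these strata, with an integral different, so the local index one coverings of the `V_v` are etale there.
`K + Δ_v ~ 0` on `V_v`, where `Δ_v` is the sum of the `D_e` in `V_v`, and `K + ∑ E_p ~ 0` on `D_e`. If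
`e` lies on two triangles then `D_e` is ruled over `E`, with the two triple curves as sections; if `e`
is in the boundary of `K` then `D_e` is rational. `N^2` is numerically trivial on the `V_v` and `D_e`. An
edge is called active if the restriction of `N` to `D_e` is not numerically trivial.
-/

namespace Pool.Agent.H86.MN

/-- the rational span of the complex numbers `w1` and `w2` -/
def Span (w1 w2 x : ℂ) : Prop := ∃ a b : ℚ, x = a * w1 + b * w2

/-- The homology group `H_3(X_t, ℚ)`, of dimension six, the monodromy, and the limits of the periods of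
the holomorphic 3-forms on the fibres, for a generator of `K_XX + X_b`. -/
structure Periods where
  /-- the logarithm of the (unipotent) monodromy -/
  M : Matrix (Fin 6) (Fin 6) ℚ
  /-- weights `1, .., 5`, monodromy theorem -/
  cube : M ^ 3 = 0
  /-- `M^2` induces an isomorphism between the graded pieces of the lowest and the highest weight, of
  dimension two at least, since `F^3` of the limit is in the piece of weight five (Schmid) -/
  two : 2 ≤ (M ^ 2).rank
  /-- the limit of the period map, a linear form; its value on an invariant class is the limit of the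
  integrals -/
  om : Fin 6 → ℂ
  /-- the periods of the iterated residue on `E` -/
  w1 : ℂ
  w2 : ℂ
  indep : ∀ a b : ℝ, (a : ℂ) * w1 + b * w2 = 0 → a = 0 ∧ b = 0
  /-- `E` has no complex multiplication: the Hodge bundle is not trivial on `b` -/
  noCM : ∀ d : ℂ, Span w1 w2 (d * w1) → Span w1 w2 (d * w2) → ∃ q : ℚ, d = q
  /-- the products of the vanishing torus of dimension two at a triple curve with two cycles of it are
  invariant; the limit of the period is the integral of the iterated residue -/
  c1 : Fin 6 → ℚ
  c2 : Fin 6 → ℚ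
  inv1 : M.mulVec c1 = 0
  inv2 : M.mulVec c2 = 0
  per1 : ∑ i, (c1 i : ℂ) * om i = (2 * Real.pi * Complex.I) ^ 2 * w1
  per2 : ∑ i, (c2 i : ℂ) * om i = (2 * Real.pi * Complex.I) ^ 2 * w2

/-- `c` is the limit of the period of a class which is invariant under the monodromy -/
def Periods.Per (D : Periods) (c : ℂ) : Prop :=
  ∃ v : Fin 6 → ℚ, D.M.mulVec v = 0 ∧ ∑ i, (v i : ℂ) * D.om i = c

/-- The case `N.E_p = r > 0` for all `p`; all double surfaces are active. `E` is the group of the
points of the elliptic curve. -/
structure Moves (E : Type) [AddCommGroup E] (r : ℤ) (Map : Prop) where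
  /-- The moves: the isomorphisms `E_p → E_q` given by the rulings of the double surfaces with two
  triple curves, and the involutions of the triple curve of a rational double surface `D_e` over the
  base of the pencil `D_e → T_e` given by `N` (of degree two on the triple curve). -/
  I : Type
  fin : Finite I
  /-- Identify all the triple curves with `E` such that the class of `N`, of degree `r`, becomes
  `r [0]` up to torsion; this is possible because moves preserve it and `E` is divisible. Since `E` has
  no complex multiplication a move becomes `x ↦ x + t` (`true`) or `x ↦ t - x` (`false`). -/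
  sgn : I → Bool
  t : I → E
  /-- it preserves `r [0]` up to torsion -/
  keep : ∀ i, ∃ k : ℕ, 0 < k ∧ k • (r • t i) = 0
  /-- The class `N` is semiample on `V_v`, which gives `V_v → C_v`, `C_v` a curve, with general fibre
  `Z`. The curve `Z ∩ Δ_v` consists of rational curves, `h^1(O_Z) = 0`, and
  `0 → K_Z → O_Z → O_(Z ∩ Δ_v) → 0` shows that it is connected, a cycle. So two points of the triple
  curves of `V_v` have the same image in `C_v` if and only if they are joined by moves on `V_v`. If the
  classes of the relation generated by all the moves, as maps of `E`, are finite, then the group `G`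
  generated by the moves is finite (a countable group with finite orbits on a curve), and the maps
  `V_v → C_v → E / G` agree on the double surfaces. They give a morphism on `X_b`, which is seminormal
  (Kollár). -/
  glue : (∀ x, {y | Relation.EqvGen (fun x y => ∃ i, y = if sgn i then x + t i else t i - x)
    x y}.Finite) → Map

/-- The case `N.E_p = 0` for all `p`. If `e` is active, `N` is semiample on `D_e` and gives an elliptic
fibration `D_e → T_e`, `T_e` a projective line; the triple curves of `D_e` are in different fibres.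
The relatively minimal model is a rational elliptic surface with `-K = E'`, a fibre divided by its
multiplicity, or it is a ruled surface over `E`. If a double surface in `V_v` is active then `N` is
semiample on `V_v` and gives `V_v → C_v`, `C_v` a curve, with general fibre `Z`; the curve `Z ∩ Δ_v`
consists of elliptic curves, fibres of the active `D_e → T_e`, and
`0 → K_Z → O_Z → O_(Z ∩ Δ_v) → 0` shows that it is one curve and `Z` is rational, or that `Z` is
ruled over an elliptic curve and there are two curves, both sections. So the degrees of `T_e → C_v` for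
the active `D_e` in `V_v` are one (free end), two (fold), or one and one (pass: the two surfaces are
birational, and both are rational or both are irrational). -/
structure Bands (D : Periods) (Map : Prop) where
  /-- the pairs `f = (D_e, V_v)` with `D_e` active, contained in `V_v` -/
  F : Type
  fin : Finite F
  /-- the same surface, the other component -/
  alpha : F → F
  alpha_alpha : ∀ f, alpha (alpha f) = f
  /-- the other active surface in the same component if there is one, the same surface otherwise -/
  beta : F → F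
  beta_beta : ∀ f, beta (beta f) = f
  /-- `D_e` is rational -/
  Rat : F → Prop
  rat_alpha : ∀ f, Rat f → Rat (alpha f)
  rat_beta : ∀ f, Rat f → Rat (beta f)
  /-- Choose a coordinate on every `T_e`: if `D_e` is rational then infinity is the point under its
  triple curve, if not then `0` and infinity are the points under its two triple curves. `phi f` is the
  map `T_e → T_e'` over `C_v` if `beta f = (D_e', V_v)`, the identity at a free end, the involution of
  `T_e` over `C_v` at a fold (and `phi f 0 = 0`, for convenience, if `D_e` is not rational). The special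
  points are preserved because the maps are induced by birational maps of the double surfaces, which
  preserve the residues of the meromorphic 3-form up to sign. -/
  phi : F → Equiv.Perm ℂ
  phi_beta : ∀ f z, phi (beta f) (phi f z) = z
  affine : ∀ f, Rat f → ∃ a b : ℂ, ∀ z, phi f z = a * z + b
  mono : ∀ f, ¬ Rat f → ∃ c : ℂ, c ≠ 0 ∧ ((∀ z, phi f z = c * z) ∨ ∀ z, phi f z = c / z)
  /-- the finite critical values of the relatively minimal fibration of the rational surface `D_e`;
  there are at least two: the Euler number is twelve and at most ten for a fibre, the Picard number is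
  ten -/
  crit : F → Finset ℂ
  crit_alpha : ∀ f, crit (alpha f) = crit f
  crit_two : ∀ f, Rat f → 2 ≤ (crit f).card
  crit_beta : ∀ f, Rat f → ∀ z ∈ crit f, phi f z ∈ crit (beta f)
  /-- `v` is an inner vertex of `K` and `h^1(V_v, O) = 1`; otherwise `v` is in the boundary and
  `h^1(V_v, O) = 0`, as follows from the Mayer-Vietoris sequence of `X_b` and `H^2(V_v, O) = 0` -/
  In : F → Prop
  /-- at a pass of irrational surfaces `V_v` is a fibration in rational curves over an irrational
  surface -/
  link : ∀ f, ¬ Rat f → beta f ≠ f → In f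
  /-- Free end: the identity. At a fold `D_e` is a double covering of the base `W` of a fibration of
  `V_v` in rational curves, and its involution changes the sign of the 2-form `dx dz / z`, `x` the
  coordinate of `E`. If `h^1(V_v, O) = 0` then `W` is regular, the sign of `dx` is changed, the form
  `dz / z` is preserved. -/
  fold : ∀ f, ¬ Rat f → beta f = f → ¬ In f → ∃ a : ℂ, a * a = 1 ∧ ∀ z, phi f z = a * z
  /-- A closed sequence of irrational active double surfaces, all components with `h^1(V_v, O) = 1`,
  and the map `z ↦ lam z` which it induces. There is no free end: the `D_e` in such a `V_v` form a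
  cycle, so if only one of them is active then its two triple curves lie over one point of `C_v`. Let
  `γ` be a loop on the general fibre of `D_e` over `z`; the circle bundle over `γ` is a torus in `X_t`;
  move it through all the components of the sequence, over the annuli in the rulings of the surfaces
  `Z`, until it arrives over `lam z`, and close by the circle bundle over `γ` moved along a path from
  `z` to `lam z`. The loop comes back to itself in `H_1` with rational coefficients, because these
  groups are the same for all the irrational `D_e` and all the `V_v` with `h^1(V_v, O) = 1`, which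
  correspond to the inner cells of the disc, a simply connected space. This 3-cycle consists of orbits of the circles which are rotated by the monodromy, so
  it is invariant. The 3-form is zero on the surfaces `Z`, and the residue on `D_e` is `dx dz / (m z)`:
  the limit period is `2 π i (mu / m) w_i` for a suitable `γ` with rational coefficients. -/
  cyc : ∀ f (n : ℕ) (lam : ℂ), ¬ Rat f → 0 < n →
    (∀ k : ℕ, In ((fun f => alpha (beta f))^[k] f)) →
    (∀ z, (fun x : F × ℂ => (alpha (beta x.1), phi x.1 x.2))^[n] (f, z) = (f, lam * z)) →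
    ∃ (mu : ℂ) (m : ℕ), 0 < m ∧ Complex.exp mu = lam ∧
      D.Per (2 * Real.pi * Complex.I * (mu / m * D.w1)) ∧
      D.Per (2 * Real.pi * Complex.I * (mu / m * D.w2))
  /-- Suppose that the classes of the relation on the curves `T_e` given by the `C_v` are finite; then it
  is given by finite groups of automorphisms of the `T_e`, because a countable group with finite orbits
  on a curve is finite. Take
  one connected set `P` of active surfaces. The maps from the `C_v`, `v` in `P`, to the quotient curve
  `R` agree on the active surfaces. A double surface which is not active, in such a `V_v`, goes to one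
  point of `R`; let `B` be the curve `R` with finitely many of its points identified: those of two such
  `V_v` for the same double surface, and those for double surfaces in one connected component of the
  union of all the other components of `X_b`. This gives a morphism from `X_b` to `B`, constant on the
  other components; `X_b` is seminormal (Kollár), `N` is numerically trivial on the fibres over the
  general points of `B`. -/
  glue : (∀ x : F × ℂ, {y | Relation.EqvGen
    (fun x y => y = (alpha x.1, x.2) ∨ y = (beta x.1, phi x.1 x.2)) x y}.Finite) → Map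

/-- The dlt model `XX` and the nef class `N`, not numerically trivial on all double surfaces. `q x y` is
the intersection number `x.y.A` on the generic fibre, `A` ample. `Semi M` says that over a finite
extension of the local ring of `b` there are a `K`-trivial model and a class whose restriction to the
generic fibre is a positive multiple of `M`, and which is semiample on the special fibre. -/
structure Fibre {P : Type} [AddCommGroup P] (q : P → P → ℤ) (A : P) (Semi : P → Prop)
    (E : Type) [AddCommGroup E] (L : P) where
  D : Periods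
  /-- the components, the double surfaces and the triple curves -/
  V : Type
  Ed : Type
  T : Type
  finV : Fintype V
  In : Ed → V → Prop
  On : T → Ed → Prop
  /-- every double surface contains a triple curve -/
  tri : ∀ e, ∃ p, On p e
  /-- the disc is connected through edges -/
  conn : ∀ p p', Relation.ReflTransGen (fun p p' => ∃ e, On p e ∧ On p' e) p p'
  /-- there is an edge in the boundary -/
  bdy : ∃ e, ∀ p p', On p e → On p' e → p = p'
  act : Ed → Prop
  /-- the degree of `N` on `E_p`, a nonnegative number, and a point of `ℂ` over the class of `N` in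
  `Pic^0(E_p) ⊗ ℚ = ℂ / (ℚ w1 + ℚ w2)` if the degree is zero -/
  deg : T → ℤ
  aj : T → ℂ
  deg_nonneg : ∀ p, 0 ≤ deg p
  /-- numerically trivial on `D_e` -/
  act_of : ∀ e p, On p e → 0 < deg p → act e
  /-- If the degree is not zero on the triple curves of `D_e`, `N` is a multiple of the fibre of a pencil
  of rational curves on `D_e` because `N^2 = 0` and `N.K < 0`; if there are two triple curves it is the
  ruling over `E`, of which they are sections. -/
  level : ∀ e p p', On p e → On p' e → deg p = deg p'
  /-- Let `N` have degree zero on the triple curve of the rational surface `D_e`, which is orthogonal to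
  `N`: so the class of `N` is represented by a 2-cycle on the complement. Its circle bundle in `X_t` is
  invariant, and the limit period is, up to sign, the integral of the residue over the 2-cycle times
  `2 π i`, given by the class of `N` on the triple curve (Carlson; Looijenga). -/
  aj_one : ∀ e p, On p e → (∀ p', On p' e → p' = p) → deg p = 0 →
    ∃ s, Span D.w1 D.w2 s ∧ D.Per ((2 * Real.pi * Complex.I) ^ 2 * (aj p + s))
  /-- the same for two triple curves, identified by the ruling -/
  aj_two : ∀ e p p', On p e → On p' e → p ≠ p' → deg p = 0 → deg p' = 0 →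
    ∃ s, Span D.w1 D.w2 s ∧ D.Per ((2 * Real.pi * Complex.I) ^ 2 * (aj p - aj p' + s))
  /-- the number of the triple curves on `D_e`, and the dimensions of `H^0(D_e, n N)`, `H^1(D_e, n N)` -/
  cnt : Ed → ℕ
  h0 : Ed → ℕ → ℕ
  h1 : Ed → ℕ → ℕ
  /-- Riemann-Roch: `χ(O) = 2 - cnt`, `N^2 = N.K = 0`; `H^2(D_e, n N)` is zero -/
  rr : ∀ e n, act e → (∀ p, On p e → deg p = 0) → 0 < n → h0 e n + cnt e = h1 e n + 2
  /-- `H^1(n N)` is mapped onto `H^1` of the trivial bundles on the triple curves, because `H^2` of
  `n N - ∑ E_p = n N + K` is zero -/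
  onto : ∀ e, act e → (∀ p, On p e → deg p = 0 ∧ Span D.w1 D.w2 (aj p)) →
    ∃ n, 0 < n ∧ cnt e ≤ h1 e n
  /-- the restriction of `N` to `D_e` is semiample and not trivial -/
  Pen : Ed → Prop
  pen_pos : ∀ e p, On p e → 0 < deg p → Pen e
  /-- nef divisors of square zero with two sections are semiample (Hodge index theorem, Zariski) -/
  pen_zero : ∀ e n, act e → 0 < n → 2 ≤ h0 e n → Pen e
  /-- the intersection numbers `N.N.A` and `N.Δ_v.A` on `V_v`, `A` ample; the sum of the first ones is
  `L.L.A` on the generic fibre -/
  nn : V → ℚ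
  nd : V → ℚ
  nn_nonneg : ∀ v, 0 ≤ nn v
  nn_sum : ∑ v, nn v = 0
  nd_pos : ∀ e v, In e v → act e → 0 < nd v
  /-- `n N - Δ_v` is pseudoeffective; then its product with the movable class `N.A` is not negative -/
  Psef : V → ℕ → Prop
  psef : ∀ v n, Psef v n → 0 ≤ n * nn v - nd v
  /-- `N` is on `V_v` the pull back of an ample class of a curve `C_v` -/
  Fib : V → Prop
  /-- `N` is not numerically trivial on `V_v`, and `N^2` is. The program for `K + (1 - ε) Δ_v + n N`,
  `n` large (cone theorem with the bound for the lengths; Birkar, Cascini, Hacon, McKernan) consists of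
  steps of degree zero for `N` and ends with a Mori fibration over a variety `T`; `N` comes from `T`, a
  component `D_e` of `Δ_v` is mapped onto `T`, so it is active, and `N` is semiample on it. -/
  fib : ∀ v, (∃ e, In e v ∧ act e) → (∀ n, ¬ Psef v n) → (∀ e, In e v → act e → Pen e) → Fib v
  /-- there is a nonconstant morphism from `X_b` to a curve such that `N` is numerically trivial on the
  general fibres -/
  Map : Prop
  /-- see `Moves` -/
  pos : ∀ r : ℤ, 0 < r → (∀ p, deg p = r) → (∀ e, Pen e) → (∀ e v, In e v → Fib v) →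
    Nonempty (Moves E r Map)
  /-- see `Bands` -/
  zero : (∀ p, deg p = 0) → (∀ e, act e → Pen e) → (∀ e v, In e v → act e → Fib v) →
    (∃ e, act e) → Nonempty (Bands D Map)
  /-- The pull back of an ample line bundle of the curve extends to the model because `H^2(X_b, O) = 0`;
  `M` is the restriction to the generic fibre, nef and not zero, since the pull back is. -/
  lift : Map → ∃ M, (∀ k : ℕ, 0 < k → Semi (k • M)) ∧ q M M = 0 ∧ q M L = 0 ∧ 0 < q M A

attribute [instance] Fibre.finV


namespace Periods

variable (D : Periods)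

/-- the linear form given by the limit periods -/
noncomputable def form : (Fin 6 → ℚ) →ₗ[ℚ] ℂ where
  toFun v := ∑ i, (v i : ℂ) * D.om i
  map_add' v w := by
    rw [← Finset.sum_add_distrib]
    refine Finset.sum_congr rfl fun i _ => ?_
    rw [Pi.add_apply, Rat.cast_add, add_mul]
  map_smul' c v := by
    rw [Finset.smul_sum]
    refine Finset.sum_congr rfl fun i _ => ?_
    rw [Pi.smul_apply, smul_eq_mul, Rat.cast_mul, mul_assoc, RingHom.id_apply, Rat.smul_def]

/-- the data of the kernel of the monodromy logarithm -/
noncomputable def lim : Pool.Agent.H39.MN.LimH3 where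
  H := Fin 6 → ℚ
  dim := by simp
  N := D.M.mulVecLin
  cube := by
    rw [← Matrix.mulVecLin_mul, ← Matrix.mulVecLin_mul, ← mul_assoc]
    have h : D.M * D.M * D.M = 0 := by
      rw [← D.cube, pow_succ, pow_succ, pow_one]
    rw [h]
    exact Matrix.mulVecLin_zero
  square := by
    rw [← Matrix.mulVecLin_mul]
    have h := D.two
    rw [pow_two] at h
    exact h
  per := D.form ∘ₗ (LinearMap.ker D.M.mulVecLin).subtype
  w := ![D.w1, D.w2]
  indep := by
    rw [Fintype.linearIndependent_iff]
    intro g hg
    rw [Fin.sum_univ_two, Complex.real_smul, Complex.real_smul] at hg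
    obtain ⟨h0, h1⟩ := D.indep (g 0) (g 1) hg
    intro i
    fin_cases i
    · exact h0
    · exact h1
  torus :=
    { toFun := fun c => ⟨c 0 • D.c1 + c 1 • D.c2, by
        rw [LinearMap.mem_ker, map_add, map_smul, map_smul, Matrix.mulVecLin_apply,
          Matrix.mulVecLin_apply, D.inv1, D.inv2, smul_zero, smul_zero, add_zero]⟩
      map_add' := fun x y => by
        apply Subtype.ext
        simp only [Pi.add_apply, add_smul, Submodule.coe_add]
        abel
      map_smul' := fun r x => by
        apply Subtype.ext
        simp only [Pi.smul_apply, smul_eq_mul, mul_smul, RingHom.id_apply,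
          Submodule.coe_smul, smul_add] }
  per_torus := by
    intro c
    change D.form (c 0 • D.c1 + c 1 • D.c2) = _
    rw [map_add, map_smul, map_smul]
    have h1 : D.form D.c1 = (2 * Real.pi * Complex.I) ^ 2 * D.w1 := D.per1
    have h2 : D.form D.c2 = (2 * Real.pi * Complex.I) ^ 2 * D.w2 := D.per2
    rw [h1, h2, Rat.smul_def, Rat.smul_def]
    simp only [Matrix.cons_val_zero, Matrix.cons_val_one]
    ring

/-- all limit periods of invariant classes are in the span of the periods of `E` -/
theorem per (c : ℂ) (hc : D.Per c) : Span D.w1 D.w2 (c / (2 * Real.pi * Complex.I) ^ 2) := by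
  obtain ⟨v, hv, rfl⟩ := hc
  obtain ⟨a, b, hab⟩ := D.lim.exists_per ⟨v, hv⟩
  refine ⟨a, b, ?_⟩
  rw [div_eq_iff (pow_ne_zero _ Complex.two_pi_I_ne_zero), mul_comm]
  exact hab

end Periods


section Orbit

variable {X : Type} (A B : Equiv.Perm X)

/-- If `A` and `B` are involutions and all points are periodic for `A B`, then the classes of the
equivalence relation generated by `A` and `B` are finite. -/
theorem finite_of_periodic (hA : ∀ x, A (A x) = x) (hB : ∀ x, B (B x) = x)
    (hT : ∀ x, ∃ n : ℕ, 0 < n ∧ ((A * B) ^ n) x = x) (x : X) :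
    {y | Relation.EqvGen (fun x y => y = A x ∨ y = B x) x y}.Finite := by
  -- the orbits of `A B` are finite
  have hfin : ∀ x, {y | ∃ k : ℤ, y = ((A * B) ^ k) x}.Finite := by
    intro x
    obtain ⟨n, hn, hnx⟩ := hT x
    have hn0 : (n : ℤ) ≠ 0 := by omega
    refine (Set.finite_range fun i : Fin n => ((A * B) ^ (i : ℕ)) x).subset ?_
    rintro y ⟨k, rfl⟩
    have h0 := Int.emod_nonneg k hn0
    have h1 := Int.emod_lt_of_pos k (Int.natCast_pos.2 hn)
    obtain ⟨r, hr⟩ := Int.eq_ofNat_of_zero_le h0
    have hrn : r < n := by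
      rw [hr] at h1
      exact_mod_cast h1
    refine ⟨⟨r, hrn⟩, ?_⟩
    have hk : k = r + n * (k / n) := by
      have h2 := Int.emod_add_mul_ediv k n
      have hr' : k % (n : ℤ) = (r : ℤ) := hr
      rw [hr'] at h2
      exact h2.symm
    have h3 : ((A * B) ^ ((n : ℤ) * (k / n))) x = x := by
      rw [zpow_mul]
      refine Equiv.Perm.zpow_apply_eq_self_of_apply_eq_self ?_ _
      rw [zpow_natCast]
      exact hnx
    change ((A * B) ^ r) x = ((A * B) ^ k) x
    rw [hk, zpow_add, Equiv.Perm.mul_apply, h3, zpow_natCast]
  have hAA : A * A = 1 := Equiv.ext hA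
  have hBB : B * B = 1 := Equiv.ext hB
  have hAi : A⁻¹ = A := inv_eq_of_mul_eq_one_left hAA
  have hBi : B⁻¹ = B := inv_eq_of_mul_eq_one_left hBB
  have hconj : A * (A * B) * A⁻¹ = (A * B)⁻¹ := by
    rw [mul_inv_rev, hAi, hBi, ← mul_assoc, hAA, one_mul]
  have hpow : ∀ k : ℤ, A * (A * B) ^ k = (A * B) ^ (-k) * A := by
    intro k
    have h : A * (A * B) ^ k * A⁻¹ = (A * B) ^ (-k) := by
      rw [← conj_zpow, hconj, inv_zpow, zpow_neg]
    rw [← h, inv_mul_cancel_right]
  have hB' : B = A * (A * B) := by rw [← mul_assoc, hAA, one_mul]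
  -- the set of the elements of both orbits is closed
  have hclosed : ∀ z y, (y = A z ∨ y = B z) →
      ((∃ k : ℤ, z = ((A * B) ^ k) x) ∨ ∃ k : ℤ, z = ((A * B) ^ k) (A x)) →
      ((∃ k : ℤ, y = ((A * B) ^ k) x) ∨ ∃ k : ℤ, y = ((A * B) ^ k) (A x)) := by
    intro z y hy hz
    have hstep : ∀ w (k : ℤ), A (((A * B) ^ k) w) = ((A * B) ^ (-k)) (A w) := by
      intro w k
      have := congrArg (fun e : Equiv.Perm X => e w) (hpow k)
      simpa [Equiv.Perm.mul_apply] using this
    have hstepB : ∀ w (k : ℤ), B (((A * B) ^ k) w) = ((A * B) ^ (-(1 + k))) (A w) := by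
      intro w k
      have h1 : B (((A * B) ^ k) w) = A (((A * B) ^ (1 + k)) w) := by
        rw [zpow_add, zpow_one, Equiv.Perm.mul_apply, Equiv.Perm.mul_apply, hA]
      rw [h1, hstep]
    rcases hy with rfl | rfl
    · rcases hz with ⟨k, rfl⟩ | ⟨k, rfl⟩
      · exact Or.inr ⟨-k, hstep x k⟩
      · refine Or.inl ⟨-k, ?_⟩
        rw [hstep, hA]
    · rcases hz with ⟨k, rfl⟩ | ⟨k, rfl⟩
      · exact Or.inr ⟨-(1 + k), hstepB x k⟩
      · refine Or.inl ⟨-(1 + k), ?_⟩
        rw [hstepB, hA]
  have hiff : ∀ z y, Relation.EqvGen (fun x y => y = A x ∨ y = B x) z y →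
      (((∃ k : ℤ, z = ((A * B) ^ k) x) ∨ ∃ k : ℤ, z = ((A * B) ^ k) (A x)) ↔
      ((∃ k : ℤ, y = ((A * B) ^ k) x) ∨ ∃ k : ℤ, y = ((A * B) ^ k) (A x))) := by
    intro z y h
    induction h with
    | rel z y h =>
      refine ⟨hclosed z y h, hclosed y z ?_⟩
      rcases h with rfl | rfl
      · exact Or.inl (hA z).symm
      · exact Or.inr (hB z).symm
    | refl z => exact Iff.rfl
    | symm z y _ ih => exact ih.symm
    | trans z y w _ _ ih1 ih2 => exact ih1.trans ih2
  refine ((hfin x).union (hfin (A x))).subset ?_
  intro y hy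
  exact (hiff x y hy).1 (Or.inl ⟨0, by simp⟩)

end Orbit


namespace Bands

variable {D : Periods} {Map : Prop} (W : Bands D Map)

/-- the permutation `(f, z) ↦ (alpha f, z)` -/
def A : Equiv.Perm (W.F × ℂ) where
  toFun x := (W.alpha x.1, x.2)
  invFun x := (W.alpha x.1, x.2)
  left_inv x := by simp [W.alpha_alpha]
  right_inv x := by simp [W.alpha_alpha]

/-- the permutation `(f, z) ↦ (beta f, phi f z)` -/
def B : Equiv.Perm (W.F × ℂ) where
  toFun x := (W.beta x.1, W.phi x.1 x.2)
  invFun x := (W.beta x.1, W.phi x.1 x.2)
  left_inv x := by simp [W.beta_beta, W.phi_beta]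
  right_inv x := by simp [W.beta_beta, W.phi_beta]

lemma A_apply (x : W.F × ℂ) : W.A x = (W.alpha x.1, x.2) := rfl
lemma B_apply (x : W.F × ℂ) : W.B x = (W.beta x.1, W.phi x.1 x.2) := rfl

lemma AB_apply (x : W.F × ℂ) : (W.A * W.B) x = (W.alpha (W.beta x.1), W.phi x.1 x.2) := rfl

/-- the permutation `alpha beta` of the set of flags -/
def sig : Equiv.Perm W.F where
  toFun f := W.alpha (W.beta f)
  invFun f := W.beta (W.alpha f)
  left_inv f := by simp [W.alpha_alpha, W.beta_beta]
  right_inv f := by simp [W.alpha_alpha, W.beta_beta]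

lemma pow_fst (n : ℕ) (x : W.F × ℂ) : (((W.A * W.B) ^ n) x).1 = (W.sig ^ n) x.1 := by
  induction n with
  | zero => rfl
  | succ n ih =>
    rw [pow_succ' (W.A * W.B), pow_succ' W.sig]
    change W.alpha (W.beta (((W.A * W.B) ^ n) x).1) = W.sig ((W.sig ^ n) x.1)
    rw [ih]
    rfl

lemma rat_sig {f : W.F} (h : W.Rat f) (n : ℕ) : W.Rat ((W.sig ^ n) f) := by
  induction n with
  | zero => exact h
  | succ n ih =>
    rw [pow_succ', Equiv.Perm.mul_apply]
    exact W.rat_alpha _ (W.rat_beta _ ih)

lemma not_rat_sig {f : W.F} (h : ¬ W.Rat f) (n : ℕ) : ¬ W.Rat ((W.sig ^ n) f) := by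
  induction n with
  | zero => exact h
  | succ n ih =>
    rw [pow_succ', Equiv.Perm.mul_apply]
    intro h'
    apply ih
    have h1 := W.rat_beta _ (W.rat_alpha _ h')
    have e : W.beta (W.alpha (W.sig ((W.sig ^ n) f))) = (W.sig ^ n) f := by
      change W.beta (W.alpha (W.alpha (W.beta ((W.sig ^ n) f)))) = _
      rw [W.alpha_alpha, W.beta_beta]
    rwa [e] at h1

/-- rational surfaces: all maps are affine -/
lemma pow_affine {f : W.F} (h : W.Rat f) (n : ℕ) :
    ∃ a b : ℂ, ∀ z, (((W.A * W.B) ^ n) (f, z)).2 = a * z + b := by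
  induction n with
  | zero => exact ⟨1, 0, fun z => by simp⟩
  | succ n ih =>
    obtain ⟨a, b, hab⟩ := ih
    obtain ⟨c, d, hcd⟩ := W.affine _ (W.rat_sig h n)
    refine ⟨c * a, c * b + d, fun z => ?_⟩
    rw [pow_succ', Equiv.Perm.mul_apply, W.AB_apply]
    change W.phi (((W.A * W.B) ^ n) (f, z)).1 (((W.A * W.B) ^ n) (f, z)).2 = _
    rw [W.pow_fst, hcd, hab]
    ring

/-- irrational surfaces: all maps are multiples of `z` or of `1/z` -/
lemma pow_mono {f : W.F} (h : ¬ W.Rat f) (n : ℕ) :
    ∃ c : ℂ, c ≠ 0 ∧ ((∀ z, (((W.A * W.B) ^ n) (f, z)).2 = c * z) ∨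
      ∀ z, (((W.A * W.B) ^ n) (f, z)).2 = c / z) := by
  induction n with
  | zero => exact ⟨1, one_ne_zero, Or.inl fun z => by simp⟩
  | succ n ih =>
    obtain ⟨c, hc, hab⟩ := ih
    obtain ⟨d, hd, hcd⟩ := W.mono _ (W.not_rat_sig h n)
    have e : ∀ z, (((W.A * W.B) ^ (n + 1)) (f, z)).2 =
        W.phi ((W.sig ^ n) f) (((W.A * W.B) ^ n) (f, z)).2 := by
      intro z
      rw [pow_succ', Equiv.Perm.mul_apply, W.AB_apply]
      change W.phi (((W.A * W.B) ^ n) (f, z)).1 (((W.A * W.B) ^ n) (f, z)).2 = _
      rw [W.pow_fst]
    rcases hab with hab | hab <;> rcases hcd with hcd | hcd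
    · refine ⟨d * c, mul_ne_zero hd hc, Or.inl fun z => ?_⟩
      rw [e, hab, hcd, mul_assoc]
    · refine ⟨d / c, div_ne_zero hd hc, Or.inr fun z => ?_⟩
      rw [e, hab, hcd, div_div]
    · refine ⟨d * c, mul_ne_zero hd hc, Or.inr fun z => ?_⟩
      rw [e, hab, hcd, mul_div_assoc]
    · refine ⟨d / c, div_ne_zero hd hc, Or.inl fun z => ?_⟩
      rw [e, hab, hcd, div_div_eq_mul_div, div_mul_eq_mul_div]

lemma A_A (x : W.F × ℂ) : W.A (W.A x) = x := by
  simp [A_apply, W.alpha_alpha]

lemma B_B (x : W.F × ℂ) : W.B (W.B x) = x := by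
  simp [B_apply, W.beta_beta, W.phi_beta]

/-- An injective map of a finite set into itself. -/
lemma periodic_of_finite {X : Type} (T : Equiv.Perm X) (S : Set X) (hS : S.Finite)
    (hT : ∀ x ∈ S, T x ∈ S) (x : X) (hx : x ∈ S) : ∃ n : ℕ, 0 < n ∧ (T ^ n) x = x := by
  have hmem : ∀ n : ℕ, (T ^ n) x ∈ S := by
    intro n
    induction n with
    | zero => exact hx
    | succ n ih =>
      rw [pow_succ', Equiv.Perm.mul_apply]
      exact hT _ ih
  obtain ⟨i, j, hij, he⟩ : ∃ i j : ℕ, i < j ∧ (T ^ i) x = (T ^ j) x := by
    have hni : ¬ Function.Injective fun n : ℕ => (T ^ n) x := by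
      intro hinj
      refine Set.infinite_range_of_injective hinj (hS.subset ?_)
      rintro _ ⟨n, rfl⟩
      exact hmem n
    rw [Function.not_injective_iff] at hni
    obtain ⟨i, j, h, hne⟩ := hni
    rcases Nat.lt_or_gt_of_ne hne with hlt | hlt
    · exact ⟨i, j, hlt, h⟩
    · exact ⟨j, i, hlt, h.symm⟩
  obtain ⟨k, rfl⟩ := Nat.exists_eq_add_of_lt hij
  refine ⟨k + 1, Nat.succ_pos k, ?_⟩
  have e : T ^ (i + k + 1) = T ^ i * T ^ (k + 1) := by rw [← pow_add, add_assoc]
  rw [e, Equiv.Perm.mul_apply] at he
  exact ((T ^ i).injective he).symm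

lemma pow_mul_fix {X : Type} (T : Equiv.Perm X) (x : X) (n k : ℕ) (h : (T ^ n) x = x) :
    (T ^ (n * k)) x = x := by
  induction k with
  | zero => simp
  | succ k ih => rw [Nat.mul_succ, pow_add, Equiv.Perm.mul_apply, h, ih]

/-- rational surfaces -/
lemma periodic_rat {f : W.F} (h : W.Rat f) (z : ℂ) :
    ∃ n : ℕ, 0 < n ∧ ((W.A * W.B) ^ n) (f, z) = (f, z) := by
  classical
  have := W.fin
  let S : Set (W.F × ℂ) := {x | W.Rat x.1 ∧ x.2 ∈ W.crit x.1}
  have hS : S.Finite := by
    have h1 : (⋃ g : W.F, (fun z : ℂ => (g, z)) '' (W.crit g : Set ℂ)).Finite :=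
      Set.finite_iUnion fun g => (W.crit g).finite_toSet.image _
    refine h1.subset ?_
    rintro ⟨g, w⟩ ⟨_, hw⟩
    exact Set.mem_iUnion.2 ⟨g, w, hw, rfl⟩
  have hT : ∀ x ∈ S, (W.A * W.B) x ∈ S := by
    rintro ⟨g, w⟩ ⟨hg, hw⟩
    refine ⟨W.rat_alpha _ (W.rat_beta _ hg), ?_⟩
    change W.phi g w ∈ W.crit (W.alpha (W.beta g))
    rw [W.crit_alpha]
    exact W.crit_beta g hg w hw
  obtain ⟨c, d, hc, hd, hcd⟩ := Finset.one_lt_card_iff.1 (Nat.lt_of_succ_le (W.crit_two f h))
  obtain ⟨n, hn, hcn⟩ := periodic_of_finite (W.A * W.B) S hS hT (f, c) ⟨h, hc⟩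
  obtain ⟨m, hm, hdm⟩ := periodic_of_finite (W.A * W.B) S hS hT (f, d) ⟨h, hd⟩
  have hcN := pow_mul_fix _ _ n m hcn
  have hdN := pow_mul_fix _ _ m n hdm
  rw [mul_comm m n] at hdN
  obtain ⟨a, b, hab⟩ := W.pow_affine h (n * m)
  refine ⟨n * m, Nat.mul_pos hn hm, ?_⟩
  have h1 : a * c + b = c := by rw [← hab c, hcN]
  have h2 : a * d + b = d := by rw [← hab d, hdN]
  have ha : a = 1 := by
    have h3 : (a - 1) * (c - d) = 0 := by linear_combination h1 - h2
    rcases mul_eq_zero.1 h3 with h4 | h4
    · exact sub_eq_zero.1 h4
    · exact absurd (sub_eq_zero.1 h4) hcd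
  have hb : b = 0 := by rw [ha] at h1; linear_combination h1
  have hfst : (((W.A * W.B) ^ (n * m)) (f, z)).1 = f := by
    rw [W.pow_fst]
    have := W.pow_fst (n * m) (f, c)
    rw [hcN] at this
    exact this.symm
  have hsnd : (((W.A * W.B) ^ (n * m)) (f, z)).2 = z := by rw [hab, ha, hb]; ring
  exact Prod.ext hfst hsnd

/-- the multiplier of a closed sequence is a root of unity -/
lemma root (f : W.F) (n : ℕ) (lam : ℂ) (hf : ¬ W.Rat f) (hn : 0 < n)
    (hin : ∀ k : ℕ, W.In ((fun f => W.alpha (W.beta f))^[k] f))
    (hz : ∀ z, (fun x : W.F × ℂ => (W.alpha (W.beta x.1), W.phi x.1 x.2))^[n] (f, z) =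
      (f, lam * z)) : ∃ k : ℕ, 0 < k ∧ lam ^ k = 1 := by
  obtain ⟨mu, m, hm, he, h1, h2⟩ := W.cyc f n lam hf hn hin hz
  have hpi : (2 * Real.pi * Complex.I : ℂ) ≠ 0 := Complex.two_pi_I_ne_zero
  have hm0 : (m : ℂ) ≠ 0 := by exact_mod_cast hm.ne'
  have key : ∀ w : ℂ, D.Per (2 * Real.pi * Complex.I * (mu / m * w)) →
      Span D.w1 D.w2 (mu / m / (2 * Real.pi * Complex.I) * w) := by
    intro w hw
    have h3 := D.per _ hw
    have e : 2 * Real.pi * Complex.I * (mu / m * w) / (2 * Real.pi * Complex.I) ^ 2 =
        mu / m / (2 * Real.pi * Complex.I) * w := by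
      field_simp
    rwa [e] at h3
  obtain ⟨q, hq⟩ := D.noCM (mu / m / (2 * Real.pi * Complex.I)) (key _ h1) (key _ h2)
  refine ⟨(m * q : ℚ).den, (m * q : ℚ).pos, ?_⟩
  have h3 : mu = ((m * q : ℚ) : ℂ) * (2 * Real.pi * Complex.I) := by
    rw [div_eq_iff hpi, div_eq_iff hm0] at hq
    rw [hq]
    push_cast
    ring
  rw [← he, ← Complex.exp_nat_mul, h3, Complex.exp_eq_one_iff]
  refine ⟨(m * q : ℚ).num, ?_⟩
  have h5 := Rat.mul_den_eq_num (m * q : ℚ)
  have h6 : (((m * q : ℚ) * ((m * q : ℚ).den : ℚ) : ℚ) : ℂ) =
      (((m * q : ℚ).num : ℚ) : ℂ) := by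
    rw [h5]
  rw [Rat.cast_mul] at h6
  rw [← mul_assoc, mul_comm (((m * q : ℚ).den : ℂ))]
  congr 1

/-- irrational surfaces -/
lemma periodic_irrat {f : W.F} (h : ¬ W.Rat f) (z : ℂ) :
    ∃ n : ℕ, 0 < n ∧ ((W.A * W.B) ^ n) (f, z) = (f, z) := by
  classical
  have := W.fin
  let N := orderOf W.sig
  have hN : 0 < N := orderOf_pos W.sig
  have hN1 : W.sig ^ N = 1 := pow_orderOf_eq_one W.sig
  have hfst : ∀ g w, (((W.A * W.B) ^ N) (g, w)).1 = g := by
    intro g w
    rw [W.pow_fst, hN1]
    rfl
  -- the inversion has order two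
  have hinv : ∀ g c, c ≠ 0 → (∀ w, (((W.A * W.B) ^ N) (g, w)).2 = c / w) →
      ∀ w, ((W.A * W.B) ^ (N * 2)) (g, w) = (g, w) := by
    intro g c hc hg w
    have e : ∀ w, ((W.A * W.B) ^ N) (g, w) = (g, c / w) := fun w =>
      Prod.ext (hfst g w) (hg w)
    rw [Nat.mul_succ, Nat.mul_one, pow_add, Equiv.Perm.mul_apply, e, e]
    congr 1
    by_cases hw : w = 0
    · rw [hw]; simp
    · field_simp
  obtain ⟨c, hc, hm | hm⟩ := W.pow_mono h N
  · by_cases hin : ∀ k : ℕ, W.In ((W.sig ^ k) f)
    · -- all vertices are inner
      have hk : ∀ (k : ℕ) (x : W.F × ℂ),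
          (fun x : W.F × ℂ => (W.alpha (W.beta x.1), W.phi x.1 x.2))^[k] x =
            ((W.A * W.B) ^ k) x := by
        intro k x
        induction k generalizing x with
        | zero => rfl
        | succ k ih =>
          rw [Function.iterate_succ, Function.comp_apply, ih, pow_succ, Equiv.Perm.mul_apply]
          rfl
      have hs : ∀ (k : ℕ), (fun f => W.alpha (W.beta f))^[k] f = (W.sig ^ k) f := by
        intro k
        induction k with
        | zero => rfl
        | succ k ih => rw [Function.iterate_succ', Function.comp_apply, ih, pow_succ']; rfl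
      obtain ⟨k, hk0, hk1⟩ := W.root f N c h hN (fun k => by rw [hs]; exact hin k) (fun w => by
        rw [hk]
        exact Prod.ext (hfst f w) (hm w))
      refine ⟨N * k, Nat.mul_pos hN hk0, ?_⟩
      have e : ∀ j : ℕ, ((W.A * W.B) ^ (N * j)) (f, z) = (f, c ^ j * z) := by
        intro j
        induction j with
        | zero => simp
        | succ j ih =>
          rw [Nat.mul_succ, add_comm, pow_add, Equiv.Perm.mul_apply, ih]
          refine Prod.ext (hfst f _) ?_
          rw [hm]
          change c * (c ^ j * z) = c ^ (j + 1) * z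
          ring
      rw [e, hk1, one_mul]
    · -- a boundary vertex
      push Not at hin
      obtain ⟨k, hk⟩ := hin
      have hgr := W.not_rat_sig h k
      -- it is a fold
      have hfold : W.beta ((W.sig ^ k) f) = (W.sig ^ k) f := by
        by_contra hne
        exact hk (W.link _ hgr hne)
      obtain ⟨a, haa, hneg⟩ := W.fold _ hgr hfold hk
      have hkey : ∀ w, ((W.A * W.B) ^ (N * 2)) ((W.sig ^ k) f, w) = ((W.sig ^ k) f, w) := by
        generalize (W.sig ^ k) f = g at hk hgr hfold hneg
        obtain ⟨c', hc', hm' | hm'⟩ := W.pow_mono hgr N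
        · intro w
          have e : ∀ w, ((W.A * W.B) ^ N) (g, w) = (g, c' * w) := fun w =>
            Prod.ext (hfst g w) (hm' w)
          have hBg : ∀ w, W.B (g, w) = (g, a * w) := by
            intro w
            rw [W.B_apply]
            change (W.beta g, W.phi g w) = _
            rw [hfold, hneg]
          -- conjugation by `B`
          have hBB : W.B * W.B = 1 := Equiv.ext W.B_B
          have hAA : W.A * W.A = 1 := Equiv.ext W.A_A
          have hBi : W.B⁻¹ = W.B := inv_eq_of_mul_eq_one_left hBB
          have hAi : W.A⁻¹ = W.A := inv_eq_of_mul_eq_one_left hAA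
          have hconj : W.B * (W.A * W.B) * W.B⁻¹ = (W.A * W.B)⁻¹ := by
            rw [mul_inv_rev, hAi, hBi, mul_assoc, mul_assoc, hBB, mul_one]
          have hconjN : W.B * (W.A * W.B) ^ N * W.B⁻¹ = ((W.A * W.B) ^ N)⁻¹ := by
            rw [← conj_pow, hconj, inv_pow]
          have h1 : (W.B * (W.A * W.B) ^ N * W.B⁻¹) (g, w) = (g, c' * w) := by
            rw [hBi, Equiv.Perm.mul_apply, Equiv.Perm.mul_apply, hBg, e, hBg]
            congr 1
            linear_combination (c' * w) * haa
          rw [hconjN, Equiv.Perm.inv_eq_iff_eq] at h1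
          rw [Nat.mul_succ, Nat.mul_one, pow_add, Equiv.Perm.mul_apply, e, ← h1]
        · exact hinv g c' hc' hm'
      refine ⟨N * 2, Nat.mul_pos hN two_pos, ?_⟩
      have h2 : ((W.A * W.B) ^ k) (f, z) = ((W.sig ^ k) f, (((W.A * W.B) ^ k) (f, z)).2) :=
        Prod.ext (W.pow_fst k (f, z)) rfl
      have h3 := hkey (((W.A * W.B) ^ k) (f, z)).2
      rw [← h2, ← Equiv.Perm.mul_apply, ← pow_add, add_comm, pow_add,
        Equiv.Perm.mul_apply] at h3
      exact ((W.A * W.B) ^ k).injective h3
  · exact ⟨N * 2, Nat.mul_pos hN two_pos, hinv f c hc hm z⟩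

include W in
/-- The relation is finite. -/
theorem result : Map := by
  refine W.glue fun x => ?_
  have h := finite_of_periodic W.A W.B W.A_A W.B_B (fun y => by
    obtain ⟨f, z⟩ := y
    by_cases hf : W.Rat f
    · exact W.periodic_rat hf z
    · exact W.periodic_irrat hf z) x
  exact h

end Bands


/-- The relation is finite: a finitely generated group of maps `x ↦ ± x + t` with torsion
translations is finite. -/
theorem Moves.result {E : Type} [AddCommGroup E] {r : ℤ} {Map : Prop} (hr : 0 < r)
    (M : Moves E r Map) : Map := by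
  have := M.fin
  refine M.glue fun x => ?_
  have ht : ∀ i, ∃ k : ℕ, 0 < k ∧ k • M.t i = 0 := by
    intro i
    obtain ⟨k, hk, h⟩ := M.keep i
    obtain ⟨n, rfl⟩ := Int.eq_ofNat_of_zero_le hr.le
    have hn : 0 < n := by exact_mod_cast hr
    refine ⟨k * n, Nat.mul_pos hk hn, ?_⟩
    rw [mul_smul]
    simpa using h
  have h := Pool.Agent.H11.MN.finite_classes ({AddEquiv.refl E, AddEquiv.neg E} : Set (E ≃+ E))
    (Set.toFinite _) (by simp) (by
      intro k hk l hl
      simp only [Set.mem_insert_iff, Set.mem_singleton_iff] at hk hl ⊢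
      rcases hk with rfl | rfl <;> rcases hl with rfl | rfl
      · left; rfl
      · right; rfl
      · right; rfl
      · left
        ext y
        simp) (by
      intro k hk
      simp only [Set.mem_insert_iff, Set.mem_singleton_iff] at hk ⊢
      rcases hk with rfl | rfl
      · left; rfl
      · right
        ext y
        rfl)
    (fun i => if M.sgn i then AddEquiv.refl E else AddEquiv.neg E) (by
      intro i
      by_cases hi : M.sgn i <;> simp [hi]) M.t ht x
  have e : (fun x y => ∃ i, y = (if M.sgn i then AddEquiv.refl E else AddEquiv.neg E) x + M.t i) =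
      fun x y => ∃ i, y = if M.sgn i then x + M.t i else M.t i - x := by
    funext x y
    apply propext
    constructor
    · rintro ⟨i, hi⟩
      refine ⟨i, ?_⟩
      by_cases hs : M.sgn i
      · simpa [hs] using hi
      · rw [if_neg hs] at hi ⊢
        rw [hi, AddEquiv.neg_apply]
        abel
    · rintro ⟨i, hi⟩
      refine ⟨i, ?_⟩
      by_cases hs : M.sgn i
      · simpa [hs] using hi
      · rw [if_neg hs] at hi ⊢
        rw [hi, AddEquiv.neg_apply]
        abel
  rwa [e] at h

section Span

variable {w1 w2 : ℂ}

lemma Span.add {x y : ℂ} (hx : Span w1 w2 x) (hy : Span w1 w2 y) : Span w1 w2 (x + y) := by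
  obtain ⟨a, b, rfl⟩ := hx
  obtain ⟨c, d, rfl⟩ := hy
  exact ⟨a + c, b + d, by push_cast; ring⟩

lemma Span.neg {x : ℂ} (hx : Span w1 w2 x) : Span w1 w2 (-x) := by
  obtain ⟨a, b, rfl⟩ := hx
  exact ⟨-a, -b, by push_cast; ring⟩

lemma Span.sub {x y : ℂ} (hx : Span w1 w2 x) (hy : Span w1 w2 y) : Span w1 w2 (x - y) := by
  rw [sub_eq_add_neg]
  exact hx.add hy.neg

end Span

namespace Fibre

variable {P : Type} [AddCommGroup P] {q : P → P → ℤ} {A : P} {Semi : P → Prop} {E : Type}
  [AddCommGroup E] {L : P} (G : Fibre q A Semi E L)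

/-- the period of an invariant class of this form is in the span -/
lemma span_of_per {x : ℂ} (h : ∃ s, Span G.D.w1 G.D.w2 s ∧
    G.D.Per ((2 * Real.pi * Complex.I) ^ 2 * (x + s))) : Span G.D.w1 G.D.w2 x := by
  obtain ⟨s, hs, hp⟩ := h
  have h1 := G.D.per _ hp
  have hpi : ((2 * Real.pi * Complex.I) ^ 2 : ℂ) ≠ 0 := pow_ne_zero _ Complex.two_pi_I_ne_zero
  rw [mul_div_cancel_left₀ _ hpi] at h1
  have h2 := h1.sub hs
  rwa [add_sub_cancel_right] at h2

/-- the degrees on the triple curves are equal -/
theorem deg_const (p p' : G.T) : G.deg p = G.deg p' := by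
  induction G.conn p p' with
  | refl => rfl
  | tail _ h ih =>
    obtain ⟨e, h1, h2⟩ := h
    rw [ih]
    exact G.level e _ _ h1 h2

/-- **Lemma T.** If the degrees are zero, the restriction of `N` to every triple curve is torsion. -/
theorem torsion (h0 : ∀ p, G.deg p = 0) (p : G.T) : Span G.D.w1 G.D.w2 (G.aj p) := by
  classical
  obtain ⟨e, he⟩ := G.bdy
  obtain ⟨p0, hp0⟩ := G.tri e
  have h1 : Span G.D.w1 G.D.w2 (G.aj p0) :=
    G.span_of_per (G.aj_one e p0 hp0 (fun p' hp' => he p' p0 hp' hp0) (h0 p0))
  induction G.conn p0 p with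
  | refl => exact h1
  | tail _ h ih =>
    rename_i b c _
    obtain ⟨e', hb, hc⟩ := h
    by_cases hbc : b = c
    · rwa [← hbc]
    · have h2 := G.span_of_per (G.aj_two e' b c hb hc hbc (h0 b) (h0 c))
      have h3 := ih.sub h2
      rwa [sub_sub_cancel] at h3

/-- there is a morphism to a curve -/
theorem exists_map (hact : ∃ e, G.act e) : G.Map := by
  classical
  -- the products with the movable class are zero
  have hnn : ∀ v, G.nn v = 0 := by
    intro v
    exact (Finset.sum_eq_zero_iff_of_nonneg fun v _ => G.nn_nonneg v).1 G.nn_sum v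
      (Finset.mem_univ v)
  have hfib : (∀ e, G.act e → G.Pen e) → ∀ e v, G.In e v → G.act e → G.Fib v := by
    intro hpen e v hev hae
    refine G.fib v ⟨e, hev, hae⟩ (fun n hn => ?_) fun e' _ h' => hpen e' h'
    have h1 := G.psef v n hn
    have h2 := G.nd_pos e v hev hae
    rw [hnn, mul_zero] at h1
    linarith
  obtain ⟨e0, he0⟩ := hact
  obtain ⟨p0, hp0⟩ := G.tri e0
  have hconst : ∀ p, G.deg p = G.deg p0 := fun p => G.deg_const p p0
  rcases (G.deg_nonneg p0).eq_or_lt with h0 | hpos
  · -- degree zero
    have hz : ∀ p, G.deg p = 0 := fun p => by rw [hconst, ← h0]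
    have hpen : ∀ e, G.act e → G.Pen e := by
      intro e hae
      obtain ⟨n, hn, hle⟩ := G.onto e hae fun p _ => ⟨hz p, G.torsion hz p⟩
      have h2 := G.rr e n hae (fun p _ => hz p) hn
      exact G.pen_zero e n hae hn (by omega)
    obtain ⟨W⟩ := G.zero hz hpen (hfib hpen) ⟨e0, he0⟩
    exact W.result
  · -- positive degree
    have hact : ∀ e, G.act e := by
      intro e
      obtain ⟨p, hp⟩ := G.tri e
      exact G.act_of e p hp (by rw [hconst]; exact hpos)
    have hpen : ∀ e, G.Pen e := by
      intro e
      obtain ⟨p, hp⟩ := G.tri e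
      exact G.pen_pos e p hp (by rw [hconst]; exact hpos)
    obtain ⟨M⟩ := G.pos (G.deg p0) hpos hconst hpen fun e v hev =>
      hfib (fun e _ => hpen e) e v hev (hact e)
    exact M.result hpos

/-- A multiple of `L` is semiample on the special fibre of a suitable model. -/
theorem result (hact : ∃ e, G.act e) (add : ∀ x y z, q (x + y) z = q x z + q y z)
    (symm : ∀ x y, q x y = q y x) (index : ∀ x, q x A = 0 → q x x = 0 → x = 0)
    (semi_mul : ∀ L (k : ℕ), 0 < k → Semi (k • L) → Semi L) (hLL : q L L = 0)
    (hLA : 0 < q L A) : Semi L := by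
  obtain ⟨M, hM, hMM, hML, hMA⟩ := G.lift (G.exists_map hact)
  -- the form is bilinear
  have hz : ∀ z, q 0 z = 0 := fun z => by
    have h := add 0 0 z
    rw [add_zero] at h
    linarith
  have hn : ∀ (n : ℕ) x z, q (n • x) z = n * q x z := by
    intro n x z
    induction n with
    | zero => rw [zero_smul, hz]; simp
    | succ n ih => rw [succ_nsmul, add, ih]; push_cast; ring
  have hneg : ∀ x z, q (-x) z = -q x z := by
    intro x z
    have h := add x (-x) z
    rw [add_neg_cancel, hz] at h
    linarith
  obtain ⟨a, ha⟩ := Int.eq_ofNat_of_zero_le hLA.le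
  obtain ⟨c, hc⟩ := Int.eq_ofNat_of_zero_le hMA.le
  have ha0 : 0 < a := by rw [ha] at hLA; exact_mod_cast hLA
  have hc0 : 0 < c := by rw [hc] at hMA; exact_mod_cast hMA
  -- Hodge index theorem
  have hx : a • M + -(c • L) = 0 := by
    apply index
    · rw [add, hneg, hn, hn, ha, hc]
      ring
    · have h1 : q (a • M + -(c • L)) (a • M + -(c • L)) =
          a * (a * q M M) - 2 * (a * (c * q M L)) + c * (c * q L L) := by
        rw [add, hneg, hn, hn, symm M, symm L, add, add, hneg, hneg, hn, hn, hn, hn, symm L M]
        ring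
      rw [h1, hMM, hML, hLL]
      ring
  have hac : a • M = c • L := by
    rw [← sub_eq_add_neg, sub_eq_zero] at hx
    exact hx
  apply semi_mul L c hc0
  rw [← hac]
  exact hM a ha0

end Fibre

end Pool.Agent.H86.MN
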