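import Pool.Agent.H31.MN.Vert
import Pool.Agent.H86.MN.Three

/-!
# MP_5ee2d0_ag, boundary divisors of type III, `h^(2,1) = 2`, numerical dimension one: the result

By `VertGerm` some nef extension of a multiple of `L` is not numerically trivial on all double
surfaces; by `Fibre` a multiple of `L` is then semiample on the special fibre of a suitable model.
-/

namespace Pool.Agent.H86.MN

open Pool.Agent.H33.MN Pool.Agent.H81.MN Pool.Agent.H31.MN

/-- The models over a prime divisor `b` of type III, `h^(2,1) = 2`. `q x y` is the intersection number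
`x.y.A` on the generic fibre, `Pt` the group of the points of the elliptic curve. -/
structure ThreeOne {P : Type} [AddCommGroup P] (g : Germ P) (NefG Big : P → Prop)
    (q : P → P → ℤ) (A : P) (Semi : P → Prop) (Pt : Type) [AddCommGroup Pt]
    extends VertGerm g NefG Big where
  /-- the dlt modification of the model `mu` -/
  fibre : ∀ mu x, g.Nef mu x → (∀ j : ℕ, g.Car mu (j • x)) → q (g.rho x) (g.rho x) = 0 →
    Fibre q A Semi Pt (g.rho x)
  /-- the curve `C` is contained in a double surface -/
  active : ∀ mu x hn hc hq C, 0 < degD mu C (cl x) → ∃ e, (fibre mu x hn hc hq).act e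

/-- Let `L` be a nef class of numerical dimension one. Then a multiple of `L` is semiample on the
special fibre of a suitable model. -/
theorem ThreeOne.result {P : Type} [AddCommGroup P] {g : Germ P} {NefG Big : P → Prop}
    {q : P → P → ℤ} {A : P} {Semi : P → Prop} {Pt : Type} [AddCommGroup Pt]
    (S : ThreeOne g NefG Big q A Semi Pt) (add : ∀ x y z, q (x + y) z = q x z + q y z)
    (symm : ∀ x y, q x y = q y x) (index : ∀ x, q x A = 0 → q x x = 0 → x = 0)
    (semi_mul : ∀ L (k : ℕ), 0 < k → Semi (k • L) → Semi L) (L : P) (hL : NefG L)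
    (hbig : Big L) (hLL : q L L = 0) (hLA : 0 < q L A) (y : g.Lam) (hy : g.rho y = L)
    (hq : ∀ mu x, ∃ k : ℕ, 0 < k ∧ ∀ j : ℕ, g.Car mu (j • k • x)) : Semi L := by
  obtain ⟨mu, k, x, hk, hx, hn, hcar, C, hC⟩ := S.nef_pos L hL hbig y hy hq
  have hz : ∀ z, q 0 z = 0 := fun z => by
    have h := add 0 0 z
    rw [add_zero] at h
    linarith
  have hmul : ∀ (n : ℕ) x z, q (n • x) z = n * q x z := by
    intro n x z
    induction n with
    | zero => rw [zero_smul, hz]; simp
    | succ n ih => rw [succ_nsmul, add, ih]; push_cast; ring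
  have hxx : q (g.rho x) (g.rho x) = 0 := by
    rw [hx, hmul, symm, hmul, hLL, mul_zero, mul_zero]
  have hxA : 0 < q (g.rho x) A := by
    rw [hx, hmul]
    exact mul_pos (by exact_mod_cast hk) hLA
  have h := (S.fibre mu x hn hcar hxx).result (S.active mu x hn hcar hxx C hC) add symm index
    semi_mul hxx hxA
  rw [hx] at h
  exact semi_mul L k hk h

end Pool.Agent.H86.MN
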